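import Pool.Agent.Lib_helper52.LQ.Defs
import Pool.Agent.Lib_helper52.LQ.P.GE
import Pool.Agent.Lib_helper52.EPS.P.RES

set_option autoImplicit false

namespace Pool.Agent.LQ

open MeasureTheory ENNReal Set Filter Topology Pool.Agent.EPS Pool.Agent.YG

variable {d : ℕ}

theorem fi_real (A B C : ℝ) (h : ∀ θ : ℝ, 0 < θ → θ < 1 →
    Real.binEntropy θ + θ * A + (1 - θ) * B ≤ C) : Real.exp A + Real.exp B ≤ Real.exp C := by
  have hA := Real.exp_pos A
  have hB := Real.exp_pos B
  have hS : 0 < Real.exp A + Real.exp B := by positivity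
  set S := Real.exp A + Real.exp B with hSd
  have hθ0 : 0 < Real.exp A / S := by positivity
  have hθ1 : Real.exp A / S < 1 := by
    rw [div_lt_one hS]; linarith
  have e1 : 1 - Real.exp A / S = Real.exp B / S := by
    field_simp
    rw [hSd]; ring
  have h1 := h _ hθ0 hθ1
  have l1 : Real.log (Real.exp A / S) = A - Real.log S := by
    rw [Real.log_div hA.ne' hS.ne', Real.log_exp]
  have l2 : Real.log (Real.exp B / S) = B - Real.log S := by
    rw [Real.log_div hB.ne' hS.ne', Real.log_exp]
  have hb : Real.binEntropy (Real.exp A / S) =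
      -(Real.exp A / S * (A - Real.log S)) - Real.exp B / S * (B - Real.log S) := by
    rw [Real.binEntropy_eq_negMulLog_add_negMulLog_one_sub, e1]
    unfold Real.negMulLog
    rw [l1, l2]
    ring
  have hsum : Real.exp A / S + Real.exp B / S = 1 := by
    rw [← add_div, ← hSd, div_self hS.ne']
  have h2 : Real.log S ≤ C := by
    rw [hb, e1] at h1
    have e3 : -(Real.exp A / S * (A - Real.log S)) - Real.exp B / S * (B - Real.log S) +
        Real.exp A / S * A + Real.exp B / S * B =
        (Real.exp A / S + Real.exp B / S) * Real.log S := by ring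
    rw [e3, hsum, one_mul] at h1
    exact h1
  calc S = Real.exp (Real.log S) := (Real.exp_log hS).symm
    _ ≤ Real.exp C := Real.exp_le_exp.2 h2

/-- `θ = z w / (z w + x y)` with the entropy powers -/
theorem q1_meas (hd : 0 < d) (α β γ : Measure (Eu d))
    [IsProbabilityMeasure α] [IsProbabilityMeasure β] [IsProbabilityMeasure γ] (hα : FinE α)
    (hβ : FinE β) (hγ : FinE γ) (hU : FinE (α.conv γ)) (hV : FinE (β.conv γ))
    (hW : FinE ((α.conv β).conv γ)) :
    epw ((α.conv β).conv γ) * epw γ + epw α * epw β ≤ epw (α.conv γ) * epw (β.conv γ) := by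
  have hd0 : (0 : ℝ) < d := by exact_mod_cast hd
  unfold epw
  rw [← Real.exp_add, ← Real.exp_add, ← Real.exp_add]
  apply fi_real
  intro θ h0 h1
  have h := ss_gen θ h0 h1 α β γ hα hβ hγ hU hV hW
  unfold SS at h
  have h4 := mul_le_mul_of_nonneg_left h (by positivity : (0 : ℝ) ≤ 2 / (d : ℝ))
  have e : 2 / (d : ℝ) * (d / 2 * Real.binEntropy θ) = Real.binEntropy θ := by
    field_simp
  rw [e] at h4
  nlinarith [h4]

end Pool.Agent.LQ
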